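import Pool.Agent.MP_308823_co.Cone

/-!
Part 2 (helper84): counting labelled maps of a fixed comparison type.
-/

set_option autoImplicit false

namespace Pool.Agent.MP_308823_co

open PowerSeries

variable {α : Type*} [Fintype α] [DecidableEq α]

/-- `s` is supported on `P`, has positive values of parity `κ` there, and its comparisons between
elements of different parity are recorded by `R`. -/
def Realizes (κ : α → ℕ) (R : Finset (α × α)) (P : Finset α) (s : α → ℕ) : Prop :=
  (∀ x, x ∉ P → s x = 0) ∧ (∀ x ∈ P, 1 ≤ s x ∧ s x % 2 = κ x) ∧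
    (∀ x ∈ P, ∀ y ∈ P, κ x ≠ κ y → ((x, y) ∈ R ↔ s x < s y))

open Classical in
/-- The maps of type `R` with values at most `N`. -/
noncomputable def cset (κ : α → ℕ) (R : Finset (α × α)) (P : Finset α) (N : ℕ) :
    Finset (α → ℕ) :=
  (Fintype.piFinset (fun _ : α => Finset.range (N + 1))).filter (fun s => Realizes κ R P s)

lemma mem_cset {κ : α → ℕ} {R : Finset (α × α)} {P : Finset α} {N : ℕ} {s : α → ℕ} :
    s ∈ cset κ R P N ↔ (∀ x, s x ≤ N) ∧ Realizes κ R P s := by
  classical
  unfold cset
  rw [Finset.mem_filter, Fintype.mem_piFinset]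
  simp only [Finset.mem_range, Nat.lt_succ_iff]

lemma card_vals (M p : ℕ) (hp : p < 2) (h : M % 2 ≠ p) (d : ℕ) :
    ((Finset.range (M + d + 1)).filter (fun v => M < v ∧ v % 2 = p)).card = (d + 1) / 2 := by
  induction d with
  | zero =>
    have h0 : (Finset.range (M + 0 + 1)).filter (fun v => M < v ∧ v % 2 = p) = ∅ := by
      apply Finset.filter_eq_empty_iff.mpr
      intro v hv
      rw [Finset.mem_range] at hv
      omega
    rw [h0]
    rfl
  | succ d ih =>
    have e : M + (d + 1) + 1 = (M + d + 1) + 1 := by omega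
    rw [e, Finset.range_add_one, Finset.filter_insert]
    split_ifs with hc
    · rw [Finset.card_insert_of_notMem (by simp), ih]
      omega
    · rw [ih]
      omega

/-- The maximal elements of the comparison type. -/
def topSet (κ : α → ℕ) (R : Finset (α × α)) (P : Finset α) : Finset α :=
  P.filter (fun x => ∀ y ∈ P, κ y ≠ κ x → (x, y) ∉ R)

/-- Every element of even type has a predecessor. -/
def HasPred (κ : α → ℕ) (R : Finset (α × α)) (P : Finset α) : Prop :=
  ∀ x ∈ P, κ x = 0 → ∃ y ∈ P, κ y ≠ κ x ∧ (y, x) ∈ R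

section
variable {κ : α → ℕ} {R : Finset (α × α)} {P : Finset α}

lemma topSet_subset : topSet κ R P ⊆ P := Finset.filter_subset _ _

lemma topSet_rel {s₀ : α → ℕ} (h0 : Realizes κ R P s₀) {x y : α} (hx : x ∈ topSet κ R P)
    (hy : y ∈ P) (hxy : κ y ≠ κ x) : (x, y) ∉ R ∧ (y, x) ∈ R := by
  rw [topSet, Finset.mem_filter] at hx
  have h1 := hx.2 y hy hxy
  refine ⟨h1, ?_⟩
  rw [h0.2.2 x hx.1 y hy (Ne.symm hxy)] at h1
  rw [h0.2.2 y hy x hx.1 hxy]
  have hne : s₀ x ≠ s₀ y := by
    intro h
    apply hxy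
    rw [← (h0.2.1 x hx.1).2, ← (h0.2.1 y hy).2, h]
  omega

lemma topSet_parity {s₀ : α → ℕ} (h0 : Realizes κ R P s₀) {x y : α} (hx : x ∈ topSet κ R P)
    (hy : y ∈ topSet κ R P) : κ x = κ y := by
  by_contra hne
  have h1 := topSet_rel h0 hx (topSet_subset hy) (Ne.symm hne)
  have h2 := topSet_rel h0 hy (topSet_subset hx) hne
  exact h1.1 h2.2

lemma topSet_nonempty {s₀ : α → ℕ} (h0 : Realizes κ R P s₀) (hP : P.Nonempty) :
    (topSet κ R P).Nonempty := by
  obtain ⟨x, hx, hmax⟩ := P.exists_max_image s₀ hP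
  refine ⟨x, ?_⟩
  rw [topSet, Finset.mem_filter]
  refine ⟨hx, fun y hy hxy hR => ?_⟩
  rw [h0.2.2 x hx y hy (Ne.symm hxy)] at hR
  have := hmax y hy
  omega

lemma not_topSet {y : α} (hy : y ∈ P) (hy' : y ∉ topSet κ R P) :
    ∃ z ∈ P, κ z ≠ κ y ∧ (y, z) ∈ R := by
  by_contra hcon
  push Not at hcon
  apply hy'
  rw [topSet, Finset.mem_filter]
  exact ⟨hy, hcon⟩

lemma realizes_restrict {s : α → ℕ} (h : Realizes κ R P s) (T : Finset α) (hT : T ⊆ P) :
    Realizes κ R (P \ T) (fun x => if x ∈ T then 0 else s x) := by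
  refine ⟨?_, ?_, ?_⟩
  · intro x hx
    simp only
    split_ifs with hxT
    · rfl
    · apply h.1
      intro hxP
      exact hx (Finset.mem_sdiff.mpr ⟨hxP, hxT⟩)
  · intro x hx
    rw [Finset.mem_sdiff] at hx
    simp only
    rw [if_neg hx.2]
    exact h.2.1 x hx.1
  · intro x hx y hy hxy
    rw [Finset.mem_sdiff] at hx hy
    simp only
    rw [if_neg hx.2, if_neg hy.2]
    exact h.2.2 x hx.1 y hy.1 hxy

lemma lt_of_mem_topSet {s : α → ℕ} (h : Realizes κ R P s) {x y : α} (hx : x ∈ topSet κ R P)
    (hy : y ∈ P) (hy' : y ∉ topSet κ R P) : s y < s x := by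
  by_cases hxy : κ y = κ x
  · obtain ⟨z, hz, hzy, hR⟩ := not_topSet hy hy'
    rw [h.2.2 y hy z hz (Ne.symm hzy)] at hR
    have h2 := (topSet_rel h hx hz (by rw [← hxy]; exact hzy)).2
    rw [h.2.2 z hz x (topSet_subset hx) (by rw [← hxy]; exact hzy)] at h2
    omega
  · have h2 := (topSet_rel h hx hy hxy).2
    rwa [h.2.2 y hy x (topSet_subset hx) hxy] at h2

/-- The parity of the top value of the rest differs from that of the top block. -/
lemma sup_parity {s₀ s' : α → ℕ} (h0 : Realizes κ R P s₀) (hpred : HasPred κ R P)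
    (h' : Realizes κ R (P \ topSet κ R P) s') {x : α} (hx : x ∈ topSet κ R P) :
    (Finset.univ.sup s') % 2 ≠ κ x := by
  have hne : (Finset.univ : Finset α).Nonempty := ⟨x, Finset.mem_univ x⟩
  obtain ⟨y, -, hy⟩ := Finset.exists_mem_eq_sup Finset.univ hne s'
  rw [hy]
  have hmax : ∀ z, s' z ≤ s' y := by
    intro z
    rw [← hy]
    exact Finset.le_sup (f := s') (Finset.mem_univ z)
  by_cases hyP : y ∈ P \ topSet κ R P
  · rw [(h'.2.1 y hyP).2]
    intro hxy
    rw [Finset.mem_sdiff] at hyP
    obtain ⟨z, hz, hzy, hR⟩ := not_topSet hyP.1 hyP.2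
    have hzT : z ∉ topSet κ R P := by
      intro hzT
      exact hzy ((topSet_parity h0 hzT hx).trans hxy.symm)
    have hz' : z ∈ P \ topSet κ R P := Finset.mem_sdiff.mpr ⟨hz, hzT⟩
    rw [h'.2.2 y (Finset.mem_sdiff.mpr hyP) z hz' (Ne.symm hzy)] at hR
    have := hmax z
    omega
  · have hy0 := h'.1 y hyP
    rw [hy0]
    have hempty : ∀ z ∈ P, z ∈ topSet κ R P := by
      intro z hz
      by_contra hzT
      have := (h'.2.1 z (Finset.mem_sdiff.mpr ⟨hz, hzT⟩)).1
      have := hmax z
      omega
    intro hx0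
    obtain ⟨z, hz, hzx, -⟩ := hpred x (topSet_subset hx) (by simpa using hx0.symm)
    exact hzx (topSet_parity h0 (hempty z hz) hx)

lemma fiber_eq {s₀ s' : α → ℕ} (h0 : Realizes κ R P s₀) {N : ℕ}
    (hs' : s' ∈ cset κ R (P \ topSet κ R P) N) {x₀ : α} (hx₀ : x₀ ∈ topSet κ R P) :
    (cset κ R P N).filter (fun s => (fun x => if x ∈ topSet κ R P then 0 else s x) = s') =
      Fintype.piFinset (fun x => if x ∈ topSet κ R P then
        (Finset.range (N + 1)).filter (fun v => Finset.univ.sup s' < v ∧ v % 2 = κ x₀)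
        else {s' x}) := by
  rw [mem_cset] at hs'
  obtain ⟨hs'N, hs'R⟩ := hs'
  have hsup : ∀ z, s' z ≤ Finset.univ.sup s' := fun z => Finset.le_sup (f := s') (Finset.mem_univ z)
  ext s
  rw [Finset.mem_filter, mem_cset, Fintype.mem_piFinset]
  constructor
  · rintro ⟨⟨hN, hR⟩, hres⟩ x
    split_ifs with hx
    · rw [Finset.mem_filter, Finset.mem_range]
      refine ⟨by have := hN x; omega, ?_, ?_⟩
      · rw [Finset.sup_lt_iff]
        · intro y _
          rw [← hres]
          simp only
          have hx1 := (hR.2.1 x (topSet_subset hx)).1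
          split_ifs with hy
          · omega
          · by_cases hyP : y ∈ P
            · exact lt_of_mem_topSet hR hx hyP hy
            · rw [hR.1 y hyP]; omega
        · have hx1 := (hR.2.1 x (topSet_subset hx)).1
          exact hx1
      · rw [(hR.2.1 x (topSet_subset hx)).2]
        exact topSet_parity h0 hx hx₀
    · rw [Finset.mem_singleton, ← hres]
      simp only
      rw [if_neg hx]
  · intro h
    have hT : ∀ x ∈ topSet κ R P, s x ≤ N ∧ Finset.univ.sup s' < s x ∧ s x % 2 = κ x₀ := by
      intro x hx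
      have := h x
      rw [if_pos hx, Finset.mem_filter, Finset.mem_range] at this
      refine ⟨by omega, this.2.1, this.2.2⟩
    have hnT : ∀ x, x ∉ topSet κ R P → s x = s' x := by
      intro x hx
      have := h x
      rwa [if_neg hx, Finset.mem_singleton] at this
    refine ⟨⟨?_, ?_, ?_, ?_⟩, ?_⟩
    · intro x
      by_cases hx : x ∈ topSet κ R P
      · exact (hT x hx).1
      · rw [hnT x hx]; exact hs'N x
    · intro x hx
      have hxT : x ∉ topSet κ R P := fun h => hx (topSet_subset h)
      rw [hnT x hxT]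
      apply hs'R.1
      intro h
      exact hx (Finset.mem_sdiff.mp h).1
    · intro x hx
      by_cases hxT : x ∈ topSet κ R P
      · refine ⟨by have := (hT x hxT).2.1; omega, ?_⟩
        rw [(hT x hxT).2.2]
        exact topSet_parity h0 hx₀ hxT
      · rw [hnT x hxT]
        exact hs'R.2.1 x (Finset.mem_sdiff.mpr ⟨hx, hxT⟩)
    · intro x hx y hy hxy
      by_cases hxT : x ∈ topSet κ R P
      · by_cases hyT : y ∈ topSet κ R P
        · exact absurd (topSet_parity h0 hxT hyT) hxy
        · have h1 := (topSet_rel h0 hxT hy (Ne.symm hxy)).1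
          have h2 := (hT x hxT).2.1
          have h3 := hsup y
          rw [hnT y hyT]
          constructor
          · intro h; exact absurd h h1
          · intro h; omega
      · by_cases hyT : y ∈ topSet κ R P
        · have h1 := (topSet_rel h0 hyT hx hxy).2
          have h2 := (hT y hyT).2.1
          have h3 := hsup x
          rw [hnT x hxT]
          constructor
          · intro _; omega
          · intro _; exact h1
        · rw [hnT x hxT, hnT y hyT]
          exact hs'R.2.2 x (Finset.mem_sdiff.mpr ⟨hx, hxT⟩) y (Finset.mem_sdiff.mpr ⟨hy, hyT⟩) hxy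
    · funext x
      split_ifs with hx
      · symm
        apply hs'R.1
        intro h
        exact (Finset.mem_sdiff.mp h).2 hx
      · exact hnT x hx

lemma card_cset_rec {s₀ : α → ℕ} (h0 : Realizes κ R P s₀) (hpred : HasPred κ R P)
    {x₀ : α} (hx₀ : x₀ ∈ topSet κ R P) (N : ℕ) :
    (cset κ R P N).card = ∑ s' ∈ cset κ R (P \ topSet κ R P) N,
      ((N - Finset.univ.sup s' + 1) / 2) ^ (topSet κ R P).card := by
  rw [Finset.card_eq_sum_card_fiberwise
    (f := fun s : α → ℕ => fun x => if x ∈ topSet κ R P then 0 else s x)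
    (t := cset κ R (P \ topSet κ R P) N)]
  · apply Finset.sum_congr rfl
    intro s' hs'
    rw [fiber_eq h0 hs' hx₀, Fintype.card_piFinset]
    have hpar := sup_parity h0 hpred (mem_cset.mp hs').2 hx₀
    have hle : Finset.univ.sup s' ≤ N := by
      apply Finset.sup_le
      intro x _
      exact (mem_cset.mp hs').1 x
    obtain ⟨d, hd⟩ := Nat.exists_eq_add_of_le hle
    have hκ : κ x₀ < 2 := by
      rw [← (h0.2.1 x₀ (topSet_subset hx₀)).2]
      exact Nat.mod_lt _ (by norm_num)
    have hV : ((Finset.range (N + 1)).filter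
        (fun v => Finset.univ.sup s' < v ∧ v % 2 = κ x₀)).card =
        (N - Finset.univ.sup s' + 1) / 2 := by
      rw [hd, card_vals _ _ hκ hpar]
      congr 2
      omega
    have : ∀ x, (if x ∈ topSet κ R P then
        (Finset.range (N + 1)).filter (fun v => Finset.univ.sup s' < v ∧ v % 2 = κ x₀)
        else {s' x}).card = if x ∈ topSet κ R P then (N - Finset.univ.sup s' + 1) / 2 else 1 := by
      intro x
      split_ifs
      · exact hV
      · rfl
    simp only [this]
    rw [Finset.prod_ite_mem, Finset.univ_inter, Finset.prod_const]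
  · intro s hs
    rw [Finset.mem_coe, mem_cset] at hs ⊢
    refine ⟨?_, realizes_restrict hs.2 _ topSet_subset⟩
    intro x
    simp only
    split_ifs
    · exact Nat.zero_le _
    · exact hs.1 x

/-- The number of maps with largest value exactly `M`. -/
noncomputable def ecount (κ : α → ℕ) (R : Finset (α × α)) (P : Finset α) (M : ℕ) : ℕ :=
  ((cset κ R P M).filter (fun s => Finset.univ.sup s = M)).card

lemma sum_by_sup (g : ℕ → ℕ) (N : ℕ) :
    ∑ s ∈ cset κ R P N, g (Finset.univ.sup s) =
      ∑ M ∈ Finset.range (N + 1), ecount κ R P M * g M := by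
  rw [← Finset.sum_fiberwise_of_maps_to (s := cset κ R P N) (t := Finset.range (N + 1))
    (g := fun s => Finset.univ.sup s)]
  · apply Finset.sum_congr rfl
    intro M hM
    rw [Finset.mem_range] at hM
    have e : (cset κ R P N).filter (fun s => Finset.univ.sup s = M) =
        (cset κ R P M).filter (fun s => Finset.univ.sup s = M) := by
      ext s
      rw [Finset.mem_filter, Finset.mem_filter, mem_cset, mem_cset]
      constructor
      · rintro ⟨⟨_, h2⟩, h3⟩
        refine ⟨⟨fun x => ?_, h2⟩, h3⟩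
        rw [← h3]
        exact Finset.le_sup (f := s) (Finset.mem_univ x)
      · rintro ⟨⟨h1, h2⟩, h3⟩
        exact ⟨⟨fun x => by have := h1 x; omega, h2⟩, h3⟩
    rw [e]
    rw [Finset.sum_congr rfl (g := fun _ => g M)]
    · rw [Finset.sum_const, smul_eq_mul, ecount]
    · intro s hs
      rw [(Finset.mem_filter.mp hs).2]
  · intro s hs
    rw [Finset.mem_range, Nat.lt_succ_iff]
    apply Finset.sup_le
    intro x _
    exact (mem_cset.mp hs).1 x

lemma mk_conv (e K : ℕ → ℕ) :
    (PowerSeries.mk fun N => ((∑ M ∈ Finset.range (N + 1), e M * K (N - M) : ℕ) : ℤ)) =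
      PowerSeries.mk (fun N => (e N : ℤ)) * PowerSeries.mk (fun N => (K N : ℤ)) := by
  ext N
  rw [coeff_mk, coeff_mul, Finset.Nat.sum_antidiagonal_eq_sum_range_succ_mk]
  simp only [coeff_mk]
  push_cast
  rfl

/-- The series counting maps of type `R`. -/
noncomputable def cser (κ : α → ℕ) (R : Finset (α × α)) (P : Finset α) : ℤ⟦X⟧ :=
  PowerSeries.mk fun N => ((cset κ R P N).card : ℤ)

lemma one_sub_X_mul_cser : (1 - X) * cser κ R P = PowerSeries.mk fun N => (ecount κ R P N : ℤ) := by
  have h : cser κ R P = PowerSeries.mk (fun N => (ecount κ R P N : ℤ)) *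
      PowerSeries.mk (fun _ => ((1 : ℕ) : ℤ)) := by
    rw [← mk_conv]
    unfold cser
    ext N
    rw [coeff_mk, coeff_mk]
    have := sum_by_sup (κ := κ) (R := R) (P := P) (fun _ => 1) N
    rw [Finset.sum_const, smul_eq_mul, mul_one] at this
    rw [this]
  rw [h, mul_left_comm]
  have h1 : (1 - X : ℤ⟦X⟧) * PowerSeries.mk (fun _ => ((1 : ℕ) : ℤ)) = 1 := by
    have := PowerSeries.mk_one_mul_one_sub_eq_one ℤ
    rw [mul_comm]
    convert this using 2
    ext n
    simp
  rw [h1, mul_one]

lemma mk_half_pow (n : ℕ) :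
    (PowerSeries.mk fun k => ((((k + 1) / 2) ^ (n + 1) : ℕ) : ℤ)) = X * (1 + X) * evenPow (n + 1) := by
  ext k
  have e : (X * (1 + X) * evenPow (n + 1) : ℤ⟦X⟧) = X * (evenPow (n + 1) + X * evenPow (n + 1)) := by
    ring
  rw [e, coeff_mk]
  rcases k with _ | _ | k
  · simp
  · rw [coeff_succ_X_mul, map_add]
    simp [evenPow]
  · rw [coeff_succ_X_mul, map_add, coeff_succ_X_mul]
    unfold evenPow
    rw [coeff_mk, coeff_mk]
    rcases Nat.mod_two_eq_zero_or_one k with hk | hk
    · rw [if_neg (by omega), if_pos hk, zero_add]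
      have : (k + 1 + 1 + 1) / 2 = k / 2 + 1 := by omega
      rw [this]
      push_cast
      ring
    · rw [if_pos (by omega), if_neg (by omega), add_zero]
      have : (k + 1 + 1 + 1) / 2 = (k + 1) / 2 + 1 := by omega
      rw [this]
      push_cast
      ring

lemma cser_rec {s₀ : α → ℕ} (h0 : Realizes κ R P s₀) (hpred : HasPred κ R P)
    {x₀ : α} (hx₀ : x₀ ∈ topSet κ R P) {n : ℕ} (hn : (topSet κ R P).card = n + 1) :
    cser κ R P = (1 - X) * cser κ R (P \ topSet κ R P) * (X * (1 + X) * evenPow (n + 1)) := by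
  rw [one_sub_X_mul_cser, ← mk_half_pow, ← mk_conv]
  unfold cser
  ext N
  rw [coeff_mk, coeff_mk, card_cset_rec h0 hpred hx₀ N, hn]
  have := sum_by_sup (κ := κ) (R := R) (P := P \ topSet κ R P)
    (fun M => ((N - M + 1) / 2) ^ (n + 1)) N
  exact congrArg Nat.cast this

end

/-- **Main theorem of this file.** -/
theorem cser_good (κ : α → ℕ) (R : Finset (α × α)) : ∀ P : Finset α,
    (∃ s, Realizes κ R P s) → HasPred κ R P →
    ∃ W, Good P.card W ∧ (1 - X ^ 2) ^ (P.card + 1) * cser κ R P = (1 + X) * W := by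
  intro P
  induction P using Finset.strongInduction with
  | H P ih =>
    rintro ⟨s₀, h0⟩ hpred
    rcases P.eq_empty_or_nonempty with hP | hP
    · subst hP
      refine ⟨1, by simpa using Good.one, ?_⟩
      have hc : cser κ R (∅ : Finset α) = PowerSeries.mk (fun _ => (1 : ℤ)) := by
        unfold cser
        ext N
        rw [coeff_mk, coeff_mk]
        have : cset κ R (∅ : Finset α) N = {fun _ => 0} := by
          ext s
          rw [mem_cset, Finset.mem_singleton]
          constructor
          · rintro ⟨_, h⟩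
            funext x
            exact h.1 x (Finset.notMem_empty x)
          · rintro rfl
            refine ⟨fun _ => Nat.zero_le _, fun _ _ => rfl, ?_, ?_⟩
            · intro x hx; exact absurd hx (Finset.notMem_empty x)
            · intro x hx; exact absurd hx (Finset.notMem_empty x)
        rw [this]
        simp
      rw [hc]
      have h1 : (1 - X : ℤ⟦X⟧) * PowerSeries.mk (fun _ => (1 : ℤ)) = 1 := by
        have := PowerSeries.mk_one_mul_one_sub_eq_one ℤ
        rw [mul_comm]
        convert this using 2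
        ext n
        simp
      rw [Finset.card_empty]
      have : (1 - X ^ 2 : ℤ⟦X⟧) ^ (0 + 1) * PowerSeries.mk (fun _ => (1 : ℤ)) =
        (1 + X) * ((1 - X) * PowerSeries.mk (fun _ => (1 : ℤ))) := by ring
      rw [this, h1]
    · obtain ⟨x₀, hx₀⟩ := topSet_nonempty h0 hP
      have hcard : 0 < (topSet κ R P).card := Finset.card_pos.mpr ⟨x₀, hx₀⟩
      obtain ⟨n, hn⟩ : ∃ n, (topSet κ R P).card = n + 1 := ⟨_, (Nat.succ_pred_eq_of_pos hcard).symm⟩
      have hss : P \ topSet κ R P ⊂ P := by
        refine ⟨Finset.sdiff_subset, fun h => ?_⟩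
        have := h (topSet_subset hx₀)
        rw [Finset.mem_sdiff] at this
        exact this.2 hx₀
      have hpred' : HasPred κ R (P \ topSet κ R P) := by
        intro x hx hx0
        rw [Finset.mem_sdiff] at hx
        obtain ⟨y, hy, hyx, hR⟩ := hpred x hx.1 hx0
        refine ⟨y, Finset.mem_sdiff.mpr ⟨hy, fun hyT => ?_⟩, hyx, hR⟩
        exact (topSet_rel h0 hyT hx.1 (Ne.symm hyx)).1 hR
      obtain ⟨W, hW, hWe⟩ := ih _ hss ⟨_, realizes_restrict h0 _ topSet_subset⟩ hpred'
      have hPc : P.card = (P \ topSet κ R P).card + (n + 1) := by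
        rw [← hn, Finset.card_sdiff_add_card_eq_card topSet_subset]
      refine ⟨W * (X * ((1 - X ^ 2) ^ (n + 2) * evenPow (n + 1))), ?_, ?_⟩
      · rw [hPc]
        exact hW.mul (good_eulerian n).X_mul
      · rw [cser_rec h0 hpred hx₀ hn, hPc]
        have : (1 - X ^ 2 : ℤ⟦X⟧) ^ ((P \ topSet κ R P).card + (n + 1) + 1) *
          ((1 - X) * cser κ R (P \ topSet κ R P) * (X * (1 + X) * evenPow (n + 1))) =
          ((1 - X ^ 2) ^ ((P \ topSet κ R P).card + 1) * cser κ R (P \ topSet κ R P)) *
            (X * ((1 - X ^ 2) ^ (n + 2) * evenPow (n + 1))) := by ring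
        rw [this, hWe]
        ring

end Pool.Agent.MP_308823_co
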