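import Mathlib

/-!
Part 1 (helper84): the cone of two-step symmetric unimodal power series with centre `c`,
described through first differences: `F` is good for `c` when `(1 - X^2) F` is a sum of terms
`X^i - X^j` with `i < j`, `i + j = 2c + 2`.  It is closed under products (Clebsch-Gordan), and it
contains the Eulerian series.
-/

set_option autoImplicit false

namespace Pool.Agent.MP_308823_co

open PowerSeries

/-- The cone of first differences. -/
def dcone (c : ℕ) : AddSubmonoid ℤ⟦X⟧ :=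
  AddSubmonoid.closure {F | ∃ i j : ℕ, i < j ∧ i + j = 2 * c + 2 ∧ F = X ^ i - X ^ j}

/-- `F` is two-step symmetric unimodal with centre `c`. -/
def Good (c : ℕ) (F : ℤ⟦X⟧) : Prop := (1 - X ^ 2) * F ∈ dcone c

lemma dcone_gen {c i j : ℕ} (h : i ≤ j) (hs : i + j = 2 * c + 2) :
    (X ^ i - X ^ j : ℤ⟦X⟧) ∈ dcone c := by
  rcases Nat.lt_or_ge i j with hij | hij
  · exact AddSubmonoid.subset_closure ⟨i, j, hij, hs, rfl⟩
  · have : i = j := le_antisymm h hij
    subst this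
    rw [sub_self]
    exact zero_mem _

lemma one_sub_sq_ne_zero : (1 - X ^ 2 : ℤ⟦X⟧) ≠ 0 := by
  intro h
  have := congrArg (coeff 0) h
  simp at this

lemma Good.add {c : ℕ} {F G : ℤ⟦X⟧} (hF : Good c F) (hG : Good c G) : Good c (F + G) := by
  unfold Good at *
  rw [mul_add]
  exact add_mem hF hG

lemma Good.zero (c : ℕ) : Good c 0 := by
  unfold Good
  rw [mul_zero]
  exact zero_mem _

lemma Good.sum {c : ℕ} {ι : Type*} (s : Finset ι) (F : ι → ℤ⟦X⟧) (h : ∀ i ∈ s, Good c (F i)) :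
    Good c (∑ i ∈ s, F i) := by
  unfold Good at *
  rw [Finset.mul_sum]
  exact sum_mem h

lemma Good.one : Good 0 1 := by
  unfold Good
  rw [mul_one]
  have := dcone_gen (c := 0) (i := 0) (j := 2) (by omega) (by omega)
  simpa using this

lemma dcone_X_mul {c : ℕ} {D : ℤ⟦X⟧} (h : D ∈ dcone c) : X * D ∈ dcone (c + 1) := by
  unfold dcone at h
  induction h using AddSubmonoid.closure_induction with
  | mem x hx =>
    obtain ⟨i, j, hij, hs, rfl⟩ := hx
    have e : (X * (X ^ i - X ^ j) : ℤ⟦X⟧) = X ^ (i + 1) - X ^ (j + 1) := by ring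
    rw [e]
    exact dcone_gen (by omega) (by omega)
  | zero => rw [mul_zero]; exact zero_mem _
  | add x y _ _ hx hy => rw [mul_add]; exact add_mem hx hy

lemma Good.X_mul {c : ℕ} {F : ℤ⟦X⟧} (h : Good c F) : Good (c + 1) (X * F) := by
  unfold Good at *
  have : (1 - X ^ 2 : ℤ⟦X⟧) * (X * F) = X * ((1 - X ^ 2) * F) := by ring
  rw [this]
  exact dcone_X_mul h

/-- The Clebsch-Gordan identity. -/
lemma cg_identity (i i' K d : ℕ) :
    (X ^ i - X ^ (i + 2 * K + 2) : ℤ⟦X⟧) * (X ^ i' - X ^ (i' + 2 * K + 2 * d + 2)) =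
      (1 - X ^ 2) * ∑ k ∈ Finset.range (K + 1),
        (X ^ (i + i' + 2 * k) - X ^ (i + i' + 4 * K + 2 * d + 2 - 2 * k)) := by
  have hrefl : ∑ k ∈ Finset.range (K + 1), (X ^ (i + i' + 4 * K + 2 * d + 2 - 2 * k) : ℤ⟦X⟧) =
      ∑ k ∈ Finset.range (K + 1), X ^ (i + i' + 2 * K + 2 * d + 2 + 2 * k) := by
    rw [← Finset.sum_range_reflect]
    apply Finset.sum_congr rfl
    intro k hk
    rw [Finset.mem_range] at hk
    congr 1
    omega
  have hgeo : (1 - X ^ 2 : ℤ⟦X⟧) * ∑ k ∈ Finset.range (K + 1), (X ^ 2) ^ k = 1 - (X ^ 2) ^ (K + 1) :=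
    mul_neg_geom_sum _ _
  have h1 : ∑ k ∈ Finset.range (K + 1), (X ^ (i + i' + 2 * k) : ℤ⟦X⟧) =
      X ^ (i + i') * ∑ k ∈ Finset.range (K + 1), (X ^ 2) ^ k := by
    rw [Finset.mul_sum]
    apply Finset.sum_congr rfl
    intro k _
    rw [← pow_mul, ← pow_add]
  have h2 : ∑ k ∈ Finset.range (K + 1), (X ^ (i + i' + 2 * K + 2 * d + 2 + 2 * k) : ℤ⟦X⟧) =
      X ^ (i + i' + 2 * K + 2 * d + 2) * ∑ k ∈ Finset.range (K + 1), (X ^ 2) ^ k := by
    rw [Finset.mul_sum]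
    apply Finset.sum_congr rfl
    intro k _
    rw [← pow_mul, ← pow_add]
  rw [Finset.sum_sub_distrib, hrefl, h1, h2]
  have : (1 - X ^ 2 : ℤ⟦X⟧) * (X ^ (i + i') * ∑ k ∈ Finset.range (K + 1), (X ^ 2) ^ k -
      X ^ (i + i' + 2 * K + 2 * d + 2) * ∑ k ∈ Finset.range (K + 1), (X ^ 2) ^ k) =
      (X ^ (i + i') - X ^ (i + i' + 2 * K + 2 * d + 2)) *
        ((1 - X ^ 2) * ∑ k ∈ Finset.range (K + 1), (X ^ 2) ^ k) := by ring
  rw [this, hgeo]
  ring

lemma cg_gen {c c' i j i' j' : ℕ} (hij : i < j) (hs : i + j = 2 * c + 2) (hij' : i' < j')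
    (hs' : i' + j' = 2 * c' + 2) (hle : j - i ≤ j' - i') :
    ∃ E ∈ dcone (c + c'), (X ^ i - X ^ j : ℤ⟦X⟧) * (X ^ i' - X ^ j') = (1 - X ^ 2) * E := by
  obtain ⟨K, hK⟩ : ∃ K, c = i + K := ⟨c - i, by omega⟩
  obtain ⟨d, hd⟩ : ∃ d, c' = i' + K + d := ⟨c' - i' - K, by omega⟩
  have hj : j = i + 2 * K + 2 := by omega
  have hj' : j' = i' + 2 * K + 2 * d + 2 := by omega
  refine ⟨∑ k ∈ Finset.range (K + 1),
        (X ^ (i + i' + 2 * k) - X ^ (i + i' + 4 * K + 2 * d + 2 - 2 * k)), ?_, ?_⟩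
  · apply sum_mem
    intro k hk
    rw [Finset.mem_range] at hk
    exact dcone_gen (by omega) (by omega)
  · rw [hj, hj', cg_identity]

lemma cg_gen' {c c' i j i' j' : ℕ} (hij : i < j) (hs : i + j = 2 * c + 2) (hij' : i' < j')
    (hs' : i' + j' = 2 * c' + 2) :
    ∃ E ∈ dcone (c + c'), (X ^ i - X ^ j : ℤ⟦X⟧) * (X ^ i' - X ^ j') = (1 - X ^ 2) * E := by
  rcases le_total (j - i) (j' - i') with h | h
  · exact cg_gen hij hs hij' hs' h
  · obtain ⟨E, hE, h2⟩ := cg_gen hij' hs' hij hs h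
    exact ⟨E, by rwa [add_comm], by rw [mul_comm]; exact h2⟩

lemma dcone_mul {c c' : ℕ} {D D' : ℤ⟦X⟧} (h : D ∈ dcone c) (h' : D' ∈ dcone c') :
    ∃ E ∈ dcone (c + c'), D * D' = (1 - X ^ 2) * E := by
  unfold dcone at h
  induction h using AddSubmonoid.closure_induction with
  | mem x hx =>
    obtain ⟨i, j, hij, hs, rfl⟩ := hx
    unfold dcone at h'
    induction h' using AddSubmonoid.closure_induction with
    | mem y hy =>
      obtain ⟨i', j', hij', hs', rfl⟩ := hy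
      exact cg_gen' hij hs hij' hs'
    | zero => exact ⟨0, zero_mem _, by ring⟩
    | add x y _ _ hx hy =>
      obtain ⟨E, hE, h1⟩ := hx
      obtain ⟨E', hE', h2⟩ := hy
      exact ⟨E + E', add_mem hE hE', by rw [mul_add, h1, h2]; ring⟩
  | zero => exact ⟨0, zero_mem _, by ring⟩
  | add x y _ _ hx hy =>
    obtain ⟨E, hE, h1⟩ := hx
    obtain ⟨E', hE', h2⟩ := hy
    exact ⟨E + E', add_mem hE hE', by rw [add_mul, h1, h2]; ring⟩

lemma Good.mul {c c' : ℕ} {F G : ℤ⟦X⟧} (hF : Good c F) (hG : Good c' G) :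
    Good (c + c') (F * G) := by
  unfold Good at *
  obtain ⟨E, hE, h⟩ := dcone_mul hF hG
  have : (1 - X ^ 2 : ℤ⟦X⟧) * ((1 - X ^ 2) * (F * G)) = (1 - X ^ 2) * E := by
    rw [← h]; ring
  rw [mul_left_cancel₀ one_sub_sq_ne_zero this]
  exact hE

/-! ### Coefficients -/

lemma dcone_coeff_nonneg {c : ℕ} {D : ℤ⟦X⟧} (h : D ∈ dcone c) :
    ∀ k, k ≤ c + 1 → 0 ≤ coeff k D := by
  unfold dcone at h
  induction h using AddSubmonoid.closure_induction with
  | mem x hx =>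
    obtain ⟨i, j, hij, hs, rfl⟩ := hx
    intro k hk
    rw [map_sub, coeff_X_pow, coeff_X_pow, if_neg (show ¬ k = j by omega)]
    split_ifs <;> norm_num
  | zero => intro k _; simp
  | add x y _ _ hx hy =>
    intro k hk
    rw [map_add]
    exact add_nonneg (hx k hk) (hy k hk)

lemma dcone_coeff_nonpos {c : ℕ} {D : ℤ⟦X⟧} (h : D ∈ dcone c) :
    ∀ k, c + 1 ≤ k → coeff k D ≤ 0 := by
  unfold dcone at h
  induction h using AddSubmonoid.closure_induction with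
  | mem x hx =>
    obtain ⟨i, j, hij, hs, rfl⟩ := hx
    intro k hk
    rw [map_sub, coeff_X_pow, coeff_X_pow, if_neg (show ¬ k = i by omega)]
    split_ifs <;> norm_num
  | zero => intro k _; simp
  | add x y _ _ hx hy =>
    intro k hk
    rw [map_add]
    exact add_nonpos (hx k hk) (hy k hk)

lemma dcone_poly {c : ℕ} {D : ℤ⟦X⟧} (h : D ∈ dcone c) :
    ∃ p : Polynomial ℤ, D = (1 - X ^ 2) * (p : ℤ⟦X⟧) := by
  unfold dcone at h
  induction h using AddSubmonoid.closure_induction with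
  | mem x hx =>
    obtain ⟨i, j, hij, hs, rfl⟩ := hx
    obtain ⟨d, hd⟩ : ∃ d, j = i + 2 * d := ⟨c + 1 - i, by omega⟩
    refine ⟨Polynomial.X ^ i * ∑ k ∈ Finset.range d, (Polynomial.X ^ 2) ^ k, ?_⟩
    have hgeo : (1 - Polynomial.X ^ 2 : Polynomial ℤ) *
        ∑ k ∈ Finset.range d, (Polynomial.X ^ 2) ^ k = 1 - (Polynomial.X ^ 2) ^ d :=
      mul_neg_geom_sum _ _
    have e : (1 - X ^ 2 : ℤ⟦X⟧) = ((1 - Polynomial.X ^ 2 : Polynomial ℤ) : ℤ⟦X⟧) := by
      push_cast; rfl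
    rw [e, ← Polynomial.coe_mul]
    have : (1 - Polynomial.X ^ 2 : Polynomial ℤ) * (Polynomial.X ^ i *
        ∑ k ∈ Finset.range d, (Polynomial.X ^ 2) ^ k) =
        Polynomial.X ^ i - Polynomial.X ^ j := by
      rw [mul_left_comm, hgeo, hd]
      ring
    rw [this]
    push_cast
    rfl
  | zero => exact ⟨0, by simp⟩
  | add x y _ _ hx hy =>
    obtain ⟨p, hp⟩ := hx
    obtain ⟨q, hq⟩ := hy
    exact ⟨p + q, by rw [hp, hq]; push_cast; ring⟩

/-! ### Eulerian series -/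

/-- The series `∑ r, (r+1)^n X^(2r)`. -/
noncomputable def evenPow (n : ℕ) : ℤ⟦X⟧ :=
  PowerSeries.mk fun k => if k % 2 = 0 then ((k / 2 + 1 : ℕ) : ℤ) ^ n else 0

/-- The even part of the difference cone, with `i + j = n`. -/
def econe (n : ℕ) : AddSubmonoid ℤ⟦X⟧ :=
  AddSubmonoid.closure {F | ∃ i j : ℕ, i < j ∧ i + j = n ∧ F = X ^ (2 * i) - X ^ (2 * j)}

lemma econe_gen {n i j : ℕ} (h : i ≤ j) (hs : i + j = n) :
    (X ^ (2 * i) - X ^ (2 * j) : ℤ⟦X⟧) ∈ econe n := by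
  rcases Nat.lt_or_ge i j with hij | hij
  · exact AddSubmonoid.subset_closure ⟨i, j, hij, hs, rfl⟩
  · have : i = j := le_antisymm h hij
    subst this
    rw [sub_self]
    exact zero_mem _

lemma econe_le_dcone {n : ℕ} : econe (n + 1) ≤ dcone n := by
  unfold econe dcone
  apply AddSubmonoid.closure_mono
  rintro F ⟨i, j, hij, hs, rfl⟩
  exact ⟨2 * i, 2 * j, by omega, by omega, rfl⟩

/-- The operator raising the power by one on numerators. -/
noncomputable def raise (n : ℕ) (D : ℤ⟦X⟧) : ℤ⟦X⟧ :=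
  (1 - X ^ 2) * (2 * D + X * derivative ℤ D) + 2 * ((n : ℤ⟦X⟧) + 2) * X ^ 2 * D

lemma raise_add (n : ℕ) (D D' : ℤ⟦X⟧) : raise n (D + D') = raise n D + raise n D' := by
  unfold raise
  rw [map_add]
  ring

lemma raise_sub (n : ℕ) (D D' : ℤ⟦X⟧) : raise n (D - D') = raise n D - raise n D' := by
  unfold raise
  rw [map_sub]
  ring

lemma raise_pow (n i j : ℕ) (h : i + j = n) :
    raise n (X ^ (2 * i) : ℤ⟦X⟧) =
      2 * (((i + 1 : ℕ) : ℤ⟦X⟧) * X ^ (2 * i) + ((j + 1 : ℕ) : ℤ⟦X⟧) * X ^ (2 * (i + 1))) := by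
  unfold raise
  have hd : (X * derivative ℤ (X ^ (2 * i)) : ℤ⟦X⟧) = ((2 * i : ℕ) : ℤ⟦X⟧) * X ^ (2 * i) := by
    rcases Nat.eq_zero_or_pos i with h0 | h0
    · subst h0; simp
    · rw [Derivation.leibniz_pow]
      have : (derivative ℤ) (X : ℤ⟦X⟧) = 1 := by
        simp
      rw [this]
      obtain ⟨i', rfl⟩ : ∃ i', i = i' + 1 := ⟨i - 1, by omega⟩
      have e : 2 * (i' + 1) - 1 = 2 * i' + 1 := by omega
      rw [e]
      simp only [smul_eq_mul, nsmul_eq_mul]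
      ring
  rw [hd]
  subst h
  push_cast
  ring

lemma raise_econe {n : ℕ} {D : ℤ⟦X⟧} (h : D ∈ econe n) :
    ∃ D' ∈ econe (n + 1), raise n D = 2 * D' := by
  unfold econe at h
  induction h using AddSubmonoid.closure_induction with
  | mem x hx =>
    obtain ⟨i, j, hij, hs, rfl⟩ := hx
    refine ⟨(i + 1) • (X ^ (2 * i) - X ^ (2 * (j + 1))) +
      (j + 1) • (X ^ (2 * (i + 1)) - X ^ (2 * j)), ?_, ?_⟩
    · apply add_mem
      · apply AddSubmonoid.nsmul_mem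
        exact econe_gen (by omega) (by omega)
      · apply AddSubmonoid.nsmul_mem
        exact econe_gen (by omega) (by omega)
    · rw [raise_sub, raise_pow n i j hs, raise_pow n j i (by omega)]
      simp only [nsmul_eq_mul]
      ring
  | zero =>
    refine ⟨0, zero_mem _, ?_⟩
    unfold raise
    simp
  | add x y _ _ hx hy =>
    obtain ⟨p, hp, h1⟩ := hx
    obtain ⟨q, hq, h2⟩ := hy
    exact ⟨p + q, add_mem hp hq, by rw [raise_add, h1, h2]; ring⟩

lemma two_mul_evenPow_succ (n : ℕ) :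
    (2 : ℤ⟦X⟧) * evenPow (n + 1) = 2 * evenPow n + X * derivative ℤ (evenPow n) := by
  ext k
  have h2 : (2 : ℤ⟦X⟧) = PowerSeries.C (2 : ℤ) := by simp
  rw [map_add, h2, PowerSeries.coeff_C_mul, PowerSeries.coeff_C_mul]
  unfold evenPow
  rcases k with _ | k
  · simp
  · rw [PowerSeries.coeff_succ_X_mul]
    rw [PowerSeries.coeff_derivative]
    simp only [PowerSeries.coeff_mk]
    by_cases hk : (k + 1) % 2 = 0
    · rw [if_pos hk]
      obtain ⟨r, hr⟩ : ∃ r, k + 1 = 2 * r := ⟨(k + 1) / 2, by omega⟩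
      have hr' : (k + 1) / 2 = r := by omega
      have hk' : (k : ℤ) + 1 = 2 * r := by exact_mod_cast hr
      rw [hr', hk', if_pos hk]
      push_cast
      ring
    · rw [if_neg hk, if_neg hk]
      ring

lemma mul_evenPow_succ {n : ℕ} {D : ℤ⟦X⟧} (h : (1 - X ^ 2) ^ (n + 2) * evenPow n = D) :
    2 * ((1 - X ^ 2) ^ (n + 3) * evenPow (n + 1)) = raise n D := by
  have hU : derivative ℤ (1 - X ^ 2 : ℤ⟦X⟧) = - (2 * X) := by
    rw [map_sub, Derivation.map_one_eq_zero, Derivation.leibniz_pow]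
    have : (derivative ℤ) (X : ℤ⟦X⟧) = 1 := by
      simp
    rw [this]
    simp
  have hd : derivative ℤ D = (1 - X ^ 2) ^ (n + 2) * derivative ℤ (evenPow n) -
      ((n : ℤ⟦X⟧) + 2) * (2 * X) * (1 - X ^ 2) ^ (n + 1) * evenPow n := by
    rw [← h, Derivation.leibniz, Derivation.leibniz_pow, hU]
    simp only [smul_eq_mul, nsmul_eq_mul]
    have e : n + 2 - 1 = n + 1 := by omega
    rw [e]
    push_cast
    ring
  have h3 : 2 * ((1 - X ^ 2) ^ (n + 3) * evenPow (n + 1) : ℤ⟦X⟧) =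
      (1 - X ^ 2) ^ (n + 3) * (2 * evenPow n + X * derivative ℤ (evenPow n)) := by
    rw [← two_mul_evenPow_succ]; ring
  rw [h3]
  unfold raise
  rw [hd, ← h]
  ring

lemma two_ne_zero' : (2 : ℤ⟦X⟧) ≠ 0 := by
  have e : (2 : ℤ⟦X⟧) = PowerSeries.C (2 : ℤ) := by simp
  intro h
  rw [e] at h
  have h2 := congrArg (coeff 0) h
  rw [coeff_C] at h2
  simp at h2

lemma evenPow_one : (1 - X ^ 2 : ℤ⟦X⟧) ^ 3 * evenPow 1 = X ^ (2 * 0) - X ^ (2 * 1) := by
  have h0 : (1 - X ^ 2 : ℤ⟦X⟧) * evenPow 0 = 1 := by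
    ext k
    rw [sub_mul, one_mul, map_sub, coeff_X_pow_mul']
    unfold evenPow
    simp only [coeff_mk, pow_zero]
    rcases k with _ | _ | k
    · simp
    · simp [coeff_one]
    · rw [if_pos (by omega : 2 ≤ k + 1 + 1)]
      have e : k + 1 + 1 - 2 = k := by omega
      have e2 : (k + 1 + 1) % 2 = k % 2 := by omega
      rw [e, e2, coeff_one]
      simp
  have h0' : (1 - X ^ 2 : ℤ⟦X⟧) ^ 2 * evenPow 0 = 1 - X ^ 2 := by
    rw [pow_two, mul_assoc, h0, mul_one]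
  have h := mul_evenPow_succ (n := 0) (D := 1 - X ^ 2) (by simpa using h0')
  have h2 : (2 : ℤ⟦X⟧) * ((1 - X ^ 2) ^ 3 * evenPow 1) = 2 * (X ^ (2 * 0) - X ^ (2 * 1)) := by
    have : (0 + 3 : ℕ) = 3 := rfl
    rw [this] at h
    have e1 : (0 + 1 : ℕ) = 1 := rfl
    rw [e1] at h
    rw [h]
    have hU : derivative ℤ (1 - X ^ 2 : ℤ⟦X⟧) = - (2 * X) := by
      rw [map_sub, Derivation.map_one_eq_zero, Derivation.leibniz_pow]
      have : (derivative ℤ) (X : ℤ⟦X⟧) = 1 := by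
        simp
      rw [this]
      simp
    unfold raise
    rw [hU]
    push_cast
    ring
  exact mul_left_cancel₀ two_ne_zero' h2

lemma evenPow_mem (n : ℕ) : (1 - X ^ 2 : ℤ⟦X⟧) ^ (n + 3) * evenPow (n + 1) ∈ econe (n + 1) := by
  induction n with
  | zero =>
    have : (0 + 3 : ℕ) = 3 := rfl
    rw [this, evenPow_one]
    exact econe_gen (by omega) (by omega)
  | succ n ih =>
    obtain ⟨D', hD', h⟩ := raise_econe ih
    have h2 := mul_evenPow_succ (n := n + 1) (D := (1 - X ^ 2) ^ (n + 3) * evenPow (n + 1)) rfl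
    rw [h] at h2
    have := mul_left_cancel₀ two_ne_zero' h2
    have e : n + 1 + 3 = n + 4 := by omega
    rw [e] at this ⊢
    rw [this]
    exact hD'

/-- The Eulerian numerator of `∑ (r+1)^n X^(2r)` is good for the centre `n - 1`. -/
lemma good_eulerian (n : ℕ) : Good n ((1 - X ^ 2 : ℤ⟦X⟧) ^ (n + 2) * evenPow (n + 1)) := by
  unfold Good
  have e : (1 - X ^ 2 : ℤ⟦X⟧) * ((1 - X ^ 2) ^ (n + 2) * evenPow (n + 1)) =
      (1 - X ^ 2) ^ (n + 3) * evenPow (n + 1) := by ring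
  rw [e]
  exact econe_le_dcone (evenPow_mem n)

end Pool.Agent.MP_308823_co
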