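import Pool.Agent.MP_308823_co.Blocks

/-!
Part 3 (helper84): systems with the reflection `t ↦ 2N + 1 - t`.
-/

set_option autoImplicit false

namespace Pool.Agent.MP_308823_co

open PowerSeries

variable {α : Type*} [Fintype α] [DecidableEq α]

/-- The reflection of the doubled index set. -/
def bar (u : α × Bool) : α × Bool := (u.1, !u.2)

/-- Parities on the doubled index set. -/
def dpar (κ : α → ℕ) (u : α × Bool) : ℕ := if u.2 then κ u.1 else 1 - κ u.1

/-- The doubled map. -/
def dbl (N : ℕ) (t : α → ℕ) (u : α × Bool) : ℕ := if u.2 then t u.1 else 2 * N + 1 - t u.1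

/-- Admissible maps. -/
def Adm (κ : α → ℕ) (N : ℕ) (t : α → ℕ) : Prop := ∀ x, 1 ≤ t x ∧ t x ≤ 2 * N ∧ t x % 2 = κ x

/-- The comparison type of a map. -/
def ctype (κ : α → ℕ) (N : ℕ) (t : α → ℕ) : Finset ((α × Bool) × (α × Bool)) :=
  Finset.univ.filter (fun p => dpar κ p.1 ≠ dpar κ p.2 ∧ dbl N t p.1 < dbl N t p.2)

omit [Fintype α] [DecidableEq α] in
lemma bar_bar (u : α × Bool) : bar (bar u) = u := by
  unfold bar; simp

section
variable {κ : α → ℕ} {N : ℕ} {t : α → ℕ}

lemma mem_ctype {u v : α × Bool} :
    (u, v) ∈ ctype κ N t ↔ dpar κ u ≠ dpar κ v ∧ dbl N t u < dbl N t v := by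
  unfold ctype
  rw [Finset.mem_filter]
  simp

omit [Fintype α] [DecidableEq α] in
lemma Adm.κ_lt (h : Adm κ N t) (x : α) : κ x < 2 := by
  rw [← (h x).2.2]; exact Nat.mod_lt _ (by norm_num)

omit [Fintype α] [DecidableEq α] in
lemma Adm.dbl_bar (h : Adm κ N t) (u : α × Bool) : dbl N t (bar u) = 2 * N + 1 - dbl N t u := by
  obtain ⟨x, b⟩ := u
  have := h x
  cases b <;> simp [dbl, bar] <;> omega

omit [Fintype α] [DecidableEq α] in
lemma Adm.dbl_bounds (h : Adm κ N t) (u : α × Bool) : 1 ≤ dbl N t u ∧ dbl N t u ≤ 2 * N := by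
  obtain ⟨x, b⟩ := u
  have := h x
  cases b <;> simp [dbl] <;> omega

omit [Fintype α] [DecidableEq α] in
lemma Adm.dbl_parity (h : Adm κ N t) (u : α × Bool) : dbl N t u % 2 = dpar κ u := by
  obtain ⟨x, b⟩ := u
  have := h x
  cases b <;> simp [dbl, dpar] <;> omega

omit [Fintype α] [DecidableEq α] in
lemma Adm.dpar_bar (h : Adm κ N t) (u : α × Bool) : dpar κ (bar u) = 1 - dpar κ u := by
  obtain ⟨x, b⟩ := u
  have := h.κ_lt x
  cases b <;> simp [dpar, bar]
  omega

omit [Fintype α] [DecidableEq α] in
lemma Adm.dpar_lt (h : Adm κ N t) (u : α × Bool) : dpar κ u < 2 := by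
  rw [← h.dbl_parity u]; exact Nat.mod_lt _ (by norm_num)

lemma Adm.mem_half (h : Adm κ N t) (u : α × Bool) :
    (u, bar u) ∈ ctype κ N t ↔ dbl N t u ≤ N := by
  rw [mem_ctype, h.dbl_bar, h.dpar_bar]
  have h1 := h.dbl_bounds u
  have h2 := h.dpar_lt u
  constructor
  · rintro ⟨_, h3⟩; omega
  · intro h3; refine ⟨?_, ?_⟩ <;> omega

end

open Classical in
/-- The admissible maps whose comparison type satisfies `C`. -/
noncomputable def admSet (κ : α → ℕ) (C : Finset ((α × Bool) × (α × Bool)) → Prop) (N : ℕ) :
    Finset (α → ℕ) :=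
  (Fintype.piFinset (fun _ : α => Finset.range (2 * N + 1))).filter
    (fun t => Adm κ N t ∧ C (ctype κ N t))

lemma mem_admSet {κ : α → ℕ} {C : Finset ((α × Bool) × (α × Bool)) → Prop} {N : ℕ} {t : α → ℕ} :
    t ∈ admSet κ C N ↔ Adm κ N t ∧ C (ctype κ N t) := by
  classical
  unfold admSet
  rw [Finset.mem_filter, Fintype.mem_piFinset]
  constructor
  · rintro ⟨_, h⟩; exact h
  · intro h
    refine ⟨fun x => ?_, h⟩
    rw [Finset.mem_range]
    have := h.1 x
    omega

/-- The lower half of the doubled set. -/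
def half (R : Finset ((α × Bool) × (α × Bool))) : Finset (α × Bool) :=
  Finset.univ.filter (fun u => (u, bar u) ∈ R)

section
variable {κ : α → ℕ} {N₀ : ℕ} {t₀ : α → ℕ} {R : Finset ((α × Bool) × (α × Bool))}

lemma mem_half_iff (h0 : Adm κ N₀ t₀) (hR : ctype κ N₀ t₀ = R) (u : α × Bool) :
    u ∈ half R ↔ dbl N₀ t₀ u ≤ N₀ := by
  unfold half
  rw [Finset.mem_filter, ← hR, h0.mem_half]
  simp

lemma bar_mem_half (h0 : Adm κ N₀ t₀) (hR : ctype κ N₀ t₀ = R) (u : α × Bool) :
    bar u ∈ half R ↔ u ∉ half R := by
  rw [mem_half_iff h0 hR, mem_half_iff h0 hR, h0.dbl_bar]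
  have := h0.dbl_bounds u
  omega

lemma card_half (h0 : Adm κ N₀ t₀) (hR : ctype κ N₀ t₀ = R) :
    (half R).card = Fintype.card α := by
  have h1 : ((half R)ᶜ).card = (half R).card := by
    have : (half R)ᶜ = (half R).image bar := by
      ext u
      rw [Finset.mem_compl, Finset.mem_image]
      constructor
      · intro hu
        exact ⟨bar u, (bar_mem_half h0 hR u).mpr hu, bar_bar u⟩
      · rintro ⟨v, hv, rfl⟩
        rw [bar_mem_half h0 hR]
        simpa using hv
    rw [this, Finset.card_image_of_injective]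
    intro u v huv
    rw [← bar_bar u, huv, bar_bar]
  have h2 := Finset.card_compl (half R)
  rw [h1, Fintype.card_prod, Fintype.card_bool] at h2
  have h3 : (half R).card ≤ Fintype.card α * 2 := by
    rw [← Fintype.card_bool, ← Fintype.card_prod]
    exact Finset.card_le_univ _
  omega

/-- From a doubled map on the lower half back to a map. -/
def unfoldMap (R : Finset ((α × Bool) × (α × Bool))) (N : ℕ) (s : α × Bool → ℕ) (x : α) : ℕ :=
  if (x, true) ∈ half R then s (x, true) else 2 * N + 1 - s (x, false)

lemma dbl_unfold (h0 : Adm κ N₀ t₀) (hR : ctype κ N₀ t₀ = R) {N : ℕ} {s : α × Bool → ℕ}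
    (hs : s ∈ cset (dpar κ) R (half R) N) (u : α × Bool) :
    dbl N (unfoldMap R N s) u = if u ∈ half R then s u else 2 * N + 1 - s (bar u) := by
  rw [mem_cset] at hs
  obtain ⟨x, b⟩ := u
  have hb := bar_mem_half h0 hR (x, true)
  have e1 : bar (x, true) = (x, false) := rfl
  have e2 : bar (x, false) = (x, true) := rfl
  rw [e1] at hb
  cases b
  · rw [e2]
    unfold dbl unfoldMap
    simp only [Bool.false_eq_true, if_false]
    by_cases h : (x, true) ∈ half R
    · rw [if_pos h, if_neg (fun h' => hb.mp h' h)]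
    · rw [if_neg h, if_pos (hb.mpr h)]
      have := hs.1 (x, false)
      omega
  · rw [e1]
    unfold dbl unfoldMap
    simp only [if_true]

lemma card_fixed (h0 : Adm κ N₀ t₀) (hR : ctype κ N₀ t₀ = R) (N : ℕ) :
    (admSet κ (fun R' => R' = R) N).card = (cset (dpar κ) R (half R) N).card := by
  apply Finset.card_nbij'
    (fun t => fun u => if u ∈ half R then dbl N t u else 0) (fun s => unfoldMap R N s)
  · intro t ht
    rw [Finset.mem_coe, mem_admSet] at ht
    obtain ⟨hA, hc⟩ := ht
    rw [Finset.mem_coe, mem_cset]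
    refine ⟨?_, ?_, ?_, ?_⟩
    · intro u
      simp only
      split_ifs with hu
      · exact (mem_half_iff hA hc u).mp hu
      · exact Nat.zero_le _
    · intro u hu
      simp only
      rw [if_neg hu]
    · intro u hu
      simp only
      rw [if_pos hu]
      exact ⟨(hA.dbl_bounds u).1, hA.dbl_parity u⟩
    · intro u hu v hv huv
      simp only
      rw [if_pos hu, if_pos hv, ← hc, mem_ctype]
      constructor
      · rintro ⟨_, h⟩; exact h
      · intro h; exact ⟨huv, h⟩
  · intro s hs
    rw [Finset.mem_coe] at hs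
    have hd := dbl_unfold h0 hR hs
    rw [mem_cset] at hs
    obtain ⟨hsN, hsR⟩ := hs
    rw [Finset.mem_coe, mem_admSet]
    have hκ : ∀ x, κ x < 2 := h0.κ_lt
    have hb : ∀ u, bar u ∈ half R ↔ u ∉ half R := bar_mem_half h0 hR
    refine ⟨?_, ?_⟩
    · intro x
      have h1 := hd (x, true)
      have e : dbl N (unfoldMap R N s) (x, true) = unfoldMap R N s x := by simp [dbl]
      rw [e] at h1
      show 1 ≤ unfoldMap R N s x ∧ unfoldMap R N s x ≤ 2 * N ∧ unfoldMap R N s x % 2 = κ x
      rw [h1]
      split_ifs with hx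
      · have := hsR.2.1 _ hx
        have h2 := hsN (x, true)
        refine ⟨this.1, by omega, ?_⟩
        rw [this.2]
        simp [dpar]
      · have hbx := (hb (x, true)).mpr hx
        have := hsR.2.1 _ hbx
        have h2 := hsN (bar (x, true))
        refine ⟨by omega, by omega, ?_⟩
        have h3 : dpar κ (bar (x, true)) = 1 - κ x := by simp [dpar, bar]
        have h4 := hκ x
        rw [h3] at this
        omega
    · have hRm : ∀ u v, (u, v) ∈ R ↔ dpar κ u ≠ dpar κ v ∧ dbl N₀ t₀ u < dbl N₀ t₀ v := by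
        intro u v
        rw [← hR, mem_ctype]
      show ctype κ N (unfoldMap R N s) = R
      ext ⟨u, v⟩
      rw [mem_ctype, hd u, hd v, hRm]
      by_cases huv : dpar κ u = dpar κ v
      · simp [huv]
      · simp only [ne_eq, huv, not_false_eq_true, true_and]
        have hu1 := mem_half_iff h0 hR u
        have hv1 := mem_half_iff h0 hR v
        by_cases hu : u ∈ half R
        · by_cases hv : v ∈ half R
          · rw [if_pos hu, if_pos hv, ← hsR.2.2 u hu v hv huv, hRm]
            simp [huv]
          · rw [if_pos hu, if_neg hv]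
            have h1 := hsN u
            have h2 := hsN (bar v)
            have h3 := hu1.mp hu
            have h4 : ¬ dbl N₀ t₀ v ≤ N₀ := fun h => hv (hv1.mpr h)
            constructor
            · intro _; omega
            · intro _; omega
        · by_cases hv : v ∈ half R
          · rw [if_neg hu, if_pos hv]
            have h1 := hsN v
            have h2 := hsN (bar u)
            have h3 := hv1.mp hv
            have h4 : ¬ dbl N₀ t₀ u ≤ N₀ := fun h => hu (hu1.mpr h)
            constructor
            · intro _; omega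
            · intro _; omega
          · rw [if_neg hu, if_neg hv]
            have hbu := (hb u).mpr hu
            have hbv := (hb v).mpr hv
            have hpar : dpar κ (bar v) ≠ dpar κ (bar u) := by
              rw [h0.dpar_bar, h0.dpar_bar]
              have := h0.dpar_lt u
              have := h0.dpar_lt v
              omega
            have h5 := hsR.2.2 _ hbv _ hbu hpar
            rw [hRm, h0.dbl_bar, h0.dbl_bar] at h5
            have h1 := hsN (bar u)
            have h2 := hsN (bar v)
            have h6 := h0.dbl_bounds u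
            have h7 := h0.dbl_bounds v
            constructor
            · intro h
              have := h5.mpr (by omega)
              omega
            · intro h
              have := h5.mp ⟨hpar, by omega⟩
              omega
  · intro t ht
    rw [Finset.mem_coe, mem_admSet] at ht
    obtain ⟨hA, hc⟩ := ht
    funext x
    unfold unfoldMap
    simp only
    have hb := bar_mem_half h0 hR (x, true)
    have e1 : bar (x, true) = (x, false) := rfl
    rw [e1] at hb
    by_cases h : (x, true) ∈ half R
    · rw [if_pos h, if_pos h]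
      simp [dbl]
    · rw [if_neg h, if_pos (hb.mpr h)]
      have := hA x
      simp only [dbl, Bool.false_eq_true, if_false]
      omega
  · intro s hs
    rw [Finset.mem_coe] at hs
    have hd := dbl_unfold h0 hR hs
    rw [mem_cset] at hs
    funext u
    simp only
    split_ifs with hu
    · rw [hd u, if_pos hu]
    · exact (hs.2.1 u hu).symm

/-- The series of one comparison type. -/
lemma fixed_good (κ : α → ℕ) (R : Finset ((α × Bool) × (α × Bool)))
    (hpred : ∀ N t, Adm κ N t → ctype κ N t = R → ∀ u, dpar κ u = 0 → ∃ v, (v, u) ∈ R) :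
    ∃ W, Good (Fintype.card α) W ∧ (1 - X ^ 2) ^ (Fintype.card α + 1) *
      (PowerSeries.mk fun N => ((admSet κ (fun R' => R' = R) N).card : ℤ)) = (1 + X) * W := by
  by_cases hex : ∃ N₀ t₀, Adm κ N₀ t₀ ∧ ctype κ N₀ t₀ = R
  · obtain ⟨N₀, t₀, h0, hR⟩ := hex
    have hreal : ∃ s, Realizes (dpar κ) R (half R) s := by
      refine ⟨fun u => if u ∈ half R then dbl N₀ t₀ u else 0, ?_, ?_, ?_⟩
      · intro u hu
        simp only
        rw [if_neg hu]
      · intro u hu
        simp only
        rw [if_pos hu]
        exact ⟨(h0.dbl_bounds u).1, h0.dbl_parity u⟩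
      · intro u hu v hv huv
        simp only
        rw [if_pos hu, if_pos hv, ← hR, mem_ctype]
        constructor
        · rintro ⟨_, h⟩; exact h
        · intro h; exact ⟨huv, h⟩
    have hP : HasPred (dpar κ) R (half R) := by
      intro u hu hu0
      obtain ⟨v, hv⟩ := hpred N₀ t₀ h0 hR u hu0
      have hv' := hv
      rw [← hR, mem_ctype] at hv'
      refine ⟨v, ?_, hv'.1, hv⟩
      rw [mem_half_iff h0 hR] at hu ⊢
      omega
    obtain ⟨W, hW, hWe⟩ := cser_good (dpar κ) R (half R) hreal hP
    rw [card_half h0 hR] at hW hWe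
    refine ⟨W, hW, ?_⟩
    rw [← hWe]
    unfold cser
    congr 2
    ext N
    rw [card_fixed h0 hR]
  · refine ⟨0, Good.zero _, ?_⟩
    have : (PowerSeries.mk fun N => ((admSet κ (fun R' => R' = R) N).card : ℤ)) = 0 := by
      ext N
      rw [coeff_mk, map_zero]
      have : admSet κ (fun R' => R' = R) N = ∅ := by
        apply Finset.eq_empty_of_forall_notMem
        intro t ht
        rw [mem_admSet] at ht
        exact hex ⟨N, t, ht.1, ht.2⟩
      rw [this]
      simp
    rw [this]
    ring

/-- **Main theorem of this file.** -/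
theorem signed_good (κ : α → ℕ) (C : Finset ((α × Bool) × (α × Bool)) → Prop)
    (hpred : ∀ N t, Adm κ N t → C (ctype κ N t) →
      ∀ u, dpar κ u = 0 → ∃ v, (v, u) ∈ ctype κ N t) :
    ∃ W, Good (Fintype.card α) W ∧ (1 - X ^ 2) ^ (Fintype.card α + 1) *
      (PowerSeries.mk fun N => ((admSet κ C N).card : ℤ)) = (1 + X) * W := by
  classical
  have hsum : ∀ N, (admSet κ C N).card =
      ∑ R ∈ Finset.univ.filter C, (admSet κ (fun R' => R' = R) N).card := by
    intro N
    rw [Finset.card_eq_sum_card_fiberwise (f := fun t => ctype κ N t)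
      (t := Finset.univ.filter C)]
    · apply Finset.sum_congr rfl
      intro R hR
      rw [Finset.mem_filter] at hR
      congr 1
      ext t
      rw [Finset.mem_filter, mem_admSet, mem_admSet]
      constructor
      · rintro ⟨⟨h1, _⟩, h2⟩; exact ⟨h1, h2⟩
      · rintro ⟨h1, h2⟩; exact ⟨⟨h1, by rw [h2]; exact hR.2⟩, h2⟩
    · intro t ht
      rw [Finset.mem_coe, mem_admSet] at ht
      rw [Finset.mem_coe, Finset.mem_filter]
      exact ⟨Finset.mem_univ _, ht.2⟩
  have hfix : ∀ R ∈ Finset.univ.filter C, ∃ W, Good (Fintype.card α) W ∧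
      (1 - X ^ 2) ^ (Fintype.card α + 1) *
      (PowerSeries.mk fun N => ((admSet κ (fun R' => R' = R) N).card : ℤ)) = (1 + X) * W := by
    intro R hR
    rw [Finset.mem_filter] at hR
    apply fixed_good
    intro N t hA hc u hu
    rw [← hc]
    apply hpred N t hA _ u hu
    rw [hc]
    exact hR.2
  choose! W hW hWe using hfix
  refine ⟨∑ R ∈ Finset.univ.filter C, W R, Good.sum _ _ hW, ?_⟩
  have : (PowerSeries.mk fun N => ((admSet κ C N).card : ℤ)) =
      ∑ R ∈ Finset.univ.filter C,
        PowerSeries.mk fun N => ((admSet κ (fun R' => R' = R) N).card : ℤ) := by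
    ext N
    rw [coeff_mk, hsum N, map_sum]
    simp only [coeff_mk]
    push_cast
    rfl
  rw [this, Finset.mul_sum, Finset.mul_sum]
  exact Finset.sum_congr rfl hWe

end

end Pool.Agent.MP_308823_co
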